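import Mathlib

/-!
Finiteness of the set of classes of lattices over an order of a finite dimensional
division algebra over the rationals (Jordan, Zassenhaus, by the argument of Hurwitz).
-/

set_option linter.unusedSectionVars false

namespace Pool.Agent.Helper7.WS

open Module

variable {D : Type*} [DivisionRing D] [Algebra ℚ D] [FiniteDimensional ℚ D]
variable {ι : Type*} [Fintype ι] [DecidableEq ι]

/-- elements with small coordinates have small norm -/
lemma small_norm (e : Basis ι ℚ D) : ∃ q : ℕ, 0 < q ∧ ∀ x : D,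
    (∀ i, |e.repr x i| ≤ 1 / (q : ℚ)) → |Algebra.norm ℚ x| < 1 := by
  classical
  have hn : Nonempty ι := by
    by_contra h
    rw [not_nonempty_iff] at h
    have h1 : (1 : D) = 0 := e.repr.injective (by ext i; exact (h.false i).elim)
    exact one_ne_zero h1
  set C : ℚ := ∑ k, ∑ i, ∑ j, |Algebra.leftMulMatrix e (e k) i j| with hC
  have hC0 : 0 ≤ C := Finset.sum_nonneg fun _ _ => Finset.sum_nonneg fun _ _ =>
    Finset.sum_nonneg fun _ _ => abs_nonneg _
  set n := Fintype.card ι with hnn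
  have hnpos : 0 < n := Fintype.card_pos
  obtain ⟨q, hq⟩ := exists_nat_gt ((n.factorial : ℚ) * (C + 1))
  have hf1 : (1 : ℚ) ≤ n.factorial := by exact_mod_cast Nat.one_le_iff_ne_zero.2 (Nat.factorial_ne_zero n)
  have hq0 : (0 : ℚ) < q := lt_of_le_of_lt (mul_nonneg (Nat.cast_nonneg _) (by linarith)) hq
  refine ⟨q, by exact_mod_cast hq0, fun x hx => ?_⟩
  have hent : ∀ i j, |Algebra.leftMulMatrix e x i j| ≤ C / q := by
    intro i j
    have hx' : x = ∑ k, e.repr x k • e k := (e.sum_repr x).symm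
    have h1 : Algebra.leftMulMatrix e x i j = ∑ k, e.repr x k * Algebra.leftMulMatrix e (e k) i j := by
      conv_lhs => rw [hx', map_sum]
      rw [Matrix.sum_apply]
      refine Finset.sum_congr rfl fun k _ => ?_
      rw [map_smul, Matrix.smul_apply, smul_eq_mul]
    rw [h1]
    calc |∑ k, e.repr x k * Algebra.leftMulMatrix e (e k) i j|
        ≤ ∑ k, |e.repr x k * Algebra.leftMulMatrix e (e k) i j| := Finset.abs_sum_le_sum_abs _ _
      _ ≤ ∑ k, (1 / (q : ℚ)) * ∑ i, ∑ j, |Algebra.leftMulMatrix e (e k) i j| := by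
          refine Finset.sum_le_sum fun k _ => ?_
          rw [abs_mul]
          refine mul_le_mul (hx k) ?_ (abs_nonneg _) (one_div_nonneg.2 hq0.le)
          calc |Algebra.leftMulMatrix e (e k) i j|
              ≤ ∑ j, |Algebra.leftMulMatrix e (e k) i j| :=
                Finset.single_le_sum (f := fun j => |Algebra.leftMulMatrix e (e k) i j|)
                  (fun _ _ => abs_nonneg _) (Finset.mem_univ j)
            _ ≤ _ := Finset.single_le_sum
                  (f := fun i => ∑ j, |Algebra.leftMulMatrix e (e k) i j|)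
                  (fun _ _ => Finset.sum_nonneg fun _ _ => abs_nonneg _) (Finset.mem_univ i)
      _ = C / q := by rw [← Finset.mul_sum, hC]; ring
  have hdet := Matrix.det_le (A := Algebra.leftMulMatrix e x) (abv := AbsoluteValue.abs)
    (x := C / q) hent
  rw [Algebra.norm_eq_matrix_det e]
  have hdet' : |(Algebra.leftMulMatrix e x).det| ≤ (n.factorial : ℚ) * (C / q) ^ n := by
    simpa [nsmul_eq_mul] using hdet
  have hCq : C / q ≤ 1 := by
    rw [div_le_one hq0]
    nlinarith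
  have hCq0 : 0 ≤ C / q := div_nonneg hC0 hq0.le
  have hpow : (C / q) ^ n ≤ C / q := by
    calc (C / q) ^ n ≤ (C / q) ^ 1 := pow_le_pow_of_le_one hCq0 hCq hnpos
      _ = C / q := pow_one _
  calc |(Algebra.leftMulMatrix e x).det| ≤ (n.factorial : ℚ) * (C / q) ^ n := hdet'
    _ ≤ (n.factorial : ℚ) * (C / q) := by gcongr
    _ < 1 := by
      rw [mul_div_assoc', div_lt_one hq0]
      nlinarith

/-- Dirichlet approximation -/
lemma approx (e : Basis ι ℚ D) (q : ℕ) (hq : 0 < q) (γ : D) :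
    ∃ j : ℕ, 0 < j ∧ j ≤ q ^ Fintype.card ι ∧ ∃ w : ι → ℤ,
      ∀ i, |e.repr ((j : ℚ) • γ - ∑ i, (w i : ℚ) • e i) i| ≤ 1 / (q : ℚ) := by
  classical
  set n := Fintype.card ι
  have hq0 : (0 : ℚ) < q := by exact_mod_cast hq
  let g : Fin (q ^ n + 1) → (ι → Fin q) := fun j i =>
    ⟨⌊(q : ℚ) * Int.fract (((j : ℕ) : ℚ) * e.repr γ i)⌋.toNat, by
      have h0 : 0 ≤ Int.fract (((j : ℕ) : ℚ) * e.repr γ i) := Int.fract_nonneg _
      have h1 : Int.fract (((j : ℕ) : ℚ) * e.repr γ i) < 1 := Int.fract_lt_one _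
      have h2 : (⌊(q : ℚ) * Int.fract (((j : ℕ) : ℚ) * e.repr γ i)⌋ : ℚ) < q :=
        lt_of_le_of_lt (Int.floor_le _) (by nlinarith)
      have h3 : ⌊(q : ℚ) * Int.fract (((j : ℕ) : ℚ) * e.repr γ i)⌋ < q := by exact_mod_cast h2
      omega⟩
  have hcard : Fintype.card (ι → Fin q) < Fintype.card (Fin (q ^ n + 1)) := by
    rw [Fintype.card_fin, Fintype.card_fun, Fintype.card_fin]
    exact Nat.lt_succ_self _
  obtain ⟨a, b, hab, hg⟩ := Fintype.exists_ne_map_eq_of_card_lt g hcard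
  wlog hlt : a < b generalizing a b
  · exact this b a hab.symm hg.symm (lt_of_le_of_ne (not_lt.1 hlt) hab.symm)
  have hlt' : (a : ℕ) < b := hlt
  refine ⟨(b : ℕ) - a, by omega, ?_, fun i =>
    ⌊((b : ℕ) : ℚ) * e.repr γ i⌋ - ⌊((a : ℕ) : ℚ) * e.repr γ i⌋, fun i => ?_⟩
  · have := b.2
    omega
  · have hgi := congrFun hg i
    have hgi' : ⌊(q : ℚ) * Int.fract (((a : ℕ) : ℚ) * e.repr γ i)⌋.toNat =
        ⌊(q : ℚ) * Int.fract (((b : ℕ) : ℚ) * e.repr γ i)⌋.toNat := congrArg Fin.val hgi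
    have ha0 : 0 ≤ ⌊(q : ℚ) * Int.fract (((a : ℕ) : ℚ) * e.repr γ i)⌋ :=
      Int.floor_nonneg.2 (mul_nonneg hq0.le (Int.fract_nonneg _))
    have hb0 : 0 ≤ ⌊(q : ℚ) * Int.fract (((b : ℕ) : ℚ) * e.repr γ i)⌋ :=
      Int.floor_nonneg.2 (mul_nonneg hq0.le (Int.fract_nonneg _))
    have heq : ⌊(q : ℚ) * Int.fract (((a : ℕ) : ℚ) * e.repr γ i)⌋ =
        ⌊(q : ℚ) * Int.fract (((b : ℕ) : ℚ) * e.repr γ i)⌋ := by omega
    have hab' := Int.abs_sub_lt_one_of_floor_eq_floor heq
    have hrepr : e.repr ((((b : ℕ) - (a : ℕ) : ℕ) : ℚ) • γ - ∑ i,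
        (((⌊((b : ℕ) : ℚ) * e.repr γ i⌋ - ⌊((a : ℕ) : ℚ) * e.repr γ i⌋ : ℤ)) : ℚ) • e i) i
        = Int.fract (((b : ℕ) : ℚ) * e.repr γ i) - Int.fract (((a : ℕ) : ℚ) * e.repr γ i) := by
      rw [map_sub, Finsupp.sub_apply, map_smul, Finsupp.smul_apply, e.repr_sum_self,
        smul_eq_mul]
      rw [Nat.cast_sub hlt'.le]
      push_cast
      rw [Int.fract, Int.fract]
      ring
    rw [hrepr, le_div_iff₀ hq0]
    rw [← mul_sub, abs_mul, abs_of_pos hq0, abs_sub_comm, mul_comm] at hab'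
    exact hab'.le

/-- a finitely generated group of elements has coordinates with bounded denominators -/
lemma bounded_denominators (e : Basis ι ℚ D) (L : AddSubgroup D) (hL : L.FG) :
    ∃ m : ℕ, 0 < m ∧ ∀ x ∈ L, ∀ i, ∃ z : ℤ, (m : ℚ) * e.repr x i = z := by
  classical
  obtain ⟨S, hS⟩ := hL
  refine ⟨∏ x ∈ S, ∏ i, (e.repr x i).den, Finset.prod_pos fun x _ => Finset.prod_pos fun i _ =>
    (e.repr x i).den_pos, fun x hx => ?_⟩
  rw [← hS] at hx
  induction hx using AddSubgroup.closure_induction with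
  | mem x hx =>
    intro i
    have h1 : (e.repr x i).den ∣ ∏ x ∈ S, ∏ i, (e.repr x i).den :=
      (Finset.dvd_prod_of_mem (fun i => (e.repr x i).den) (Finset.mem_univ i)).trans
        (Finset.dvd_prod_of_mem (fun x => ∏ i, (e.repr x i).den) hx)
    obtain ⟨c, hc⟩ := h1
    refine ⟨c * (e.repr x i).num, ?_⟩
    have h2 : ((e.repr x i).den : ℚ) * e.repr x i = (e.repr x i).num := by
      rw [mul_comm]; exact Rat.mul_den_eq_num _
    rw [hc]
    push_cast
    rw [← h2]
    ring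
  | zero => intro i; exact ⟨0, by simp⟩
  | add x y _ _ hx hy =>
    intro i
    obtain ⟨a, ha⟩ := hx i
    obtain ⟨b, hb⟩ := hy i
    exact ⟨a + b, by rw [map_add, Finsupp.add_apply, mul_add, ha, hb]; push_cast; ring⟩
  | neg x _ hx =>
    intro i
    obtain ⟨a, ha⟩ := hx i
    exact ⟨-a, by rw [map_neg, Finsupp.neg_apply, mul_neg, ha]; push_cast; ring⟩

/-- the norms of the elements of a finitely generated group have bounded denominators -/
lemma norm_denominators (e : Basis ι ℚ D) (L : AddSubgroup D) (hL : L.FG) :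
    ∃ m : ℕ, 0 < m ∧ ∀ x ∈ L, ∃ z : ℤ, (m : ℚ) * Algebra.norm ℚ x = z := by
  classical
  obtain ⟨m, hm, h⟩ := bounded_denominators e L hL
  set c : ℕ := ∏ k, ∏ i, ∏ j, (Algebra.leftMulMatrix e (e k) i j).den with hc
  have hcpos : 0 < c := Finset.prod_pos fun k _ => Finset.prod_pos fun i _ =>
    Finset.prod_pos fun j _ => Rat.den_pos _
  have hcd : ∀ k i j, ∃ z : ℤ, (c : ℚ) * Algebra.leftMulMatrix e (e k) i j = z := by
    intro k i j
    have h1 : (Algebra.leftMulMatrix e (e k) i j).den ∣ c :=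
      ((Finset.dvd_prod_of_mem (fun j => (Algebra.leftMulMatrix e (e k) i j).den)
        (Finset.mem_univ j)).trans
        (Finset.dvd_prod_of_mem (fun i => ∏ j, (Algebra.leftMulMatrix e (e k) i j).den)
          (Finset.mem_univ i))).trans
        (Finset.dvd_prod_of_mem (fun k => ∏ i, ∏ j, (Algebra.leftMulMatrix e (e k) i j).den)
          (Finset.mem_univ k))
    obtain ⟨r, hr⟩ := h1
    refine ⟨r * (Algebra.leftMulMatrix e (e k) i j).num, ?_⟩
    have h2 : ((Algebra.leftMulMatrix e (e k) i j).den : ℚ) * Algebra.leftMulMatrix e (e k) i j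
        = (Algebra.leftMulMatrix e (e k) i j).num := by
      rw [mul_comm]; exact Rat.mul_den_eq_num _
    rw [hr]
    push_cast
    rw [← h2]
    ring
  choose z hz using hcd
  set n := Fintype.card ι
  refine ⟨(m * c) ^ n, by positivity, fun x hx => ?_⟩
  choose y hy using h x hx
  have hmat : ((m * c : ℕ) : ℚ) • Algebra.leftMulMatrix e x =
      (Matrix.of fun i j => ∑ k, y k * z k i j : Matrix ι ι ℤ).map (Int.castRingHom ℚ) := by
    ext i j
    have hx' : x = ∑ k, e.repr x k • e k := (e.sum_repr x).symm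
    have h1 : Algebra.leftMulMatrix e x i j = ∑ k, e.repr x k * Algebra.leftMulMatrix e (e k) i j := by
      conv_lhs => rw [hx', map_sum]
      rw [Matrix.sum_apply]
      refine Finset.sum_congr rfl fun k _ => ?_
      rw [map_smul, Matrix.smul_apply, smul_eq_mul]
    rw [Matrix.smul_apply, h1, smul_eq_mul, Finset.mul_sum, Matrix.map_apply, Matrix.of_apply,
      map_sum]
    refine Finset.sum_congr rfl fun k _ => ?_
    rw [map_mul, eq_intCast, eq_intCast, ← hy k, ← hz k i j]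
    push_cast
    ring
  refine ⟨(Matrix.of fun i j => ∑ k, y k * z k i j : Matrix ι ι ℤ).det, ?_⟩
  rw [Algebra.norm_eq_matrix_det e]
  have h3 := congrArg Matrix.det hmat
  rw [Matrix.det_smul, ← RingHom.mapMatrix_apply, ← RingHom.map_det, eq_intCast] at h3
  rw [Nat.cast_pow]
  exact h3

/-- a finitely generated nonzero group of elements has an element of least norm -/
lemma exists_min_norm (e : Basis ι ℚ D) (L : AddSubgroup D) (hL : L.FG) (h0 : L ≠ ⊥) :
    ∃ l ∈ L, l ≠ 0 ∧ ∀ x ∈ L, |Algebra.norm ℚ x| < |Algebra.norm ℚ l| → x = 0 := by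
  classical
  obtain ⟨m, hm, h⟩ := norm_denominators e L hL
  choose! z hz using h
  obtain ⟨l0, hl0, hl0'⟩ : ∃ l ∈ L, l ≠ 0 := by
    by_contra hcon
    push Not at hcon
    exact h0 ((AddSubgroup.eq_bot_iff_forall L).2 hcon)
  have hex : ∃ k : ℕ, ∃ l ∈ L, l ≠ 0 ∧ (z l).natAbs = k := ⟨_, l0, hl0, hl0', rfl⟩
  obtain ⟨l, hl, hl', hk⟩ := Nat.find_spec hex
  refine ⟨l, hl, hl', fun x hx hlt => ?_⟩
  by_contra hx0
  have h1 : (z x).natAbs < (z l).natAbs := by
    have h2 : |(z x : ℚ)| < |(z l : ℚ)| := by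
      rw [← hz x hx, ← hz l hl, abs_mul, abs_mul]
      have : (0 : ℚ) < |(m : ℚ)| := by positivity
      exact mul_lt_mul_of_pos_left hlt this
    have h3 : |z x| < |z l| := by exact_mod_cast h2
    rw [Int.abs_eq_natAbs, Int.abs_eq_natAbs] at h3
    exact_mod_cast h3
  rw [hk] at h1
  exact Nat.find_min hex h1 ⟨x, hx, hx0, rfl⟩

/-- the lattice generated by a basis -/
def lat (e : Basis ι ℚ D) : AddSubgroup D where
  carrier := {x | ∀ i, ∃ z : ℤ, e.repr x i = z}
  zero_mem' := fun i => ⟨0, by simp⟩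
  add_mem' := fun {x y} hx hy i => by
    obtain ⟨a, ha⟩ := hx i
    obtain ⟨b, hb⟩ := hy i
    exact ⟨a + b, by rw [map_add, Finsupp.add_apply, ha, hb]; push_cast; ring⟩
  neg_mem' := fun {x} hx i => by
    obtain ⟨a, ha⟩ := hx i
    exact ⟨-a, by rw [map_neg, Finsupp.neg_apply, ha]; push_cast; ring⟩

/-- there are only finitely many groups between a lattice and a multiple -/
lemma finite_between (e : Basis ι ℚ D) (M : ℕ) (hM : 0 < M) :
    {K : AddSubgroup D | lat e ≤ K ∧ ∀ x ∈ K, (M : ℚ) • x ∈ lat e}.Finite := by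
  classical
  let φ : AddSubgroup D → Set (ι → Fin M) := fun K =>
    {c | ∑ i, (((c i : ℕ) : ℚ) / M) • e i ∈ K}
  refine Set.Finite.of_injOn (f := φ) (t := Set.univ) (fun _ _ => Set.mem_univ _) ?_
    (Set.toFinite _)
  have key : ∀ K ∈ {K : AddSubgroup D | lat e ≤ K ∧ ∀ x ∈ K, (M : ℚ) • x ∈ lat e},
      ∀ K' ∈ {K : AddSubgroup D | lat e ≤ K ∧ ∀ x ∈ K, (M : ℚ) • x ∈ lat e},
      φ K = φ K' → K ≤ K' := by
    intro K hK K' hK' h x hx
    have h1 := hK.2 x hx
    choose a ha using h1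
    have hM' : (M : ℤ) ≠ 0 := by exact_mod_cast hM.ne'
    have hMQ : (M : ℚ) ≠ 0 := by exact_mod_cast hM.ne'
    have hmod : ∀ i, (a i % (M : ℤ)).toNat < M := by
      intro i
      have := Int.emod_lt_of_pos (a i) (by exact_mod_cast hM : (0 : ℤ) < M)
      have := Int.emod_nonneg (a i) hM'
      omega
    set c : ι → Fin M := fun i => ⟨(a i % (M : ℤ)).toNat, hmod i⟩ with hc
    have hcv : ∀ i, (((c i : ℕ) : ℚ)) = a i - M * (a i / (M : ℤ) : ℤ) := by
      intro i
      have h2 : ((c i : ℕ) : ℤ) = a i % (M : ℤ) := by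
        rw [hc]
        exact Int.toNat_of_nonneg (Int.emod_nonneg _ hM')
      have h3 : ((c i : ℕ) : ℤ) = a i - M * (a i / (M : ℤ)) := by
        rw [h2]
        have := Int.mul_ediv_add_emod (a i) (M : ℤ)
        linarith
      exact_mod_cast h3
    set w : D := ∑ i, ((a i / (M : ℤ) : ℤ) : ℚ) • e i with hw
    have hwlat : w ∈ lat e := fun i => ⟨a i / (M : ℤ), by rw [hw, e.repr_sum_self]⟩
    have hx' : x = (∑ i, (((c i : ℕ) : ℚ) / M) • e i) + w := by
      apply e.repr.injective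
      ext i
      rw [map_add, Finsupp.add_apply, hw, e.repr_sum_self, e.repr_sum_self, hcv i]
      have h4 := ha i
      rw [map_smul, Finsupp.smul_apply, smul_eq_mul] at h4
      field_simp
      rw [mul_comm, h4]
      ring
    have hcK : c ∈ φ K := by
      change ∑ i, (((c i : ℕ) : ℚ) / M) • e i ∈ K
      have h5 : ∑ i, (((c i : ℕ) : ℚ) / M) • e i = x - w := by rw [hx']; abel
      rw [h5]
      exact K.sub_mem hx (hK.1 hwlat)
    rw [h] at hcK
    rw [hx']
    exact K'.add_mem hcK (hK'.1 hwlat)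
  intro K hK K' hK' h
  exact le_antisymm (key K hK K' hK' h) (key K' hK' K hK h.symm)

/-- **Finiteness of the class number** (Jordan, Zassenhaus): up to left multiplication by
nonzero elements there are only finitely many nonzero finitely generated groups which are
stable under right multiplication by an order. -/
theorem finite_classes (O : Subring D) (hO : ∀ d : D, ∃ m : ℕ, 0 < m ∧ (m : ℚ) • d ∈ O) :
    ∃ T : Set (AddSubgroup D), T.Finite ∧ ∀ L : AddSubgroup D, L.FG → L ≠ ⊥ →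
      (∀ x ∈ L, ∀ o ∈ O, x * o ∈ L) →
      ∃ d : D, d ≠ 0 ∧ L.map (AddMonoidHom.mulLeft d) ∈ T := by
  classical
  set e0 := finBasis ℚ D
  choose m hm hm' using hO
  let u : Fin (finrank ℚ D) → ℚˣ := fun i =>
    Units.mk0 (m (e0 i) : ℚ) (by exact_mod_cast (hm (e0 i)).ne')
  set e : Basis (Fin (finrank ℚ D)) ℚ D := e0.unitsSMul u with he
  have heO : ∀ i, e i ∈ O := by
    intro i
    rw [he, Basis.unitsSMul_apply]
    exact hm' (e0 i)
  have hlatO : ∀ w : Fin (finrank ℚ D) → ℤ, ∑ i, (w i : ℚ) • e i ∈ O := by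
    intro w
    refine O.sum_mem fun i _ => ?_
    have : (w i : ℚ) • e i = (w i) • e i := Int.cast_smul_eq_zsmul ℚ (w i) (e i)
    rw [this]
    exact O.zsmul_mem (heO i) _
  obtain ⟨q, hq, hsmall⟩ := small_norm e
  set M := (q ^ Fintype.card (Fin (finrank ℚ D))).factorial with hM
  refine ⟨_, finite_between e M (Nat.factorial_pos _), fun L hfg h0 hLO => ?_⟩
  obtain ⟨l, hl, hl0, hmin⟩ := exists_min_norm e L hfg h0
  refine ⟨l⁻¹, inv_ne_zero hl0, ?_, ?_⟩
  · intro x hx
    choose w hw using hx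
    have hx' : x = ∑ i, (w i : ℚ) • e i := by
      apply e.repr.injective
      ext i
      rw [e.repr_sum_self, hw]
    refine ⟨l * x, hLO l hl x (hx' ▸ hlatO w), ?_⟩
    change l⁻¹ * (l * x) = x
    rw [← mul_assoc, inv_mul_cancel₀ hl0, one_mul]
  · rintro _ ⟨a, ha, rfl⟩
    change (M : ℚ) • (l⁻¹ * a) ∈ lat e
    obtain ⟨j, hj, hjq, w, hw⟩ := approx e q hq (l⁻¹ * a)
    have h1 := hsmall _ hw
    set ω : D := ∑ i, (w i : ℚ) • e i with hω
    have hωO : ω ∈ O := hlatO w
    have h2 : l * ((j : ℚ) • (l⁻¹ * a) - ω) = (j : ℚ) • a - l * ω := by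
      rw [mul_sub, mul_smul_comm, ← mul_assoc, mul_inv_cancel₀ hl0, one_mul]
    have h3 : (j : ℚ) • a - l * ω ∈ L := by
      refine L.sub_mem ?_ (hLO l hl ω hωO)
      have : (j : ℚ) • a = j • a := Nat.cast_smul_eq_nsmul ℚ j a
      rw [this]
      exact L.nsmul_mem ha _
    have h4 : |Algebra.norm ℚ ((j : ℚ) • a - l * ω)| < |Algebra.norm ℚ l| := by
      rw [← h2, map_mul, abs_mul]
      have hn : 0 < |Algebra.norm ℚ l| := by
        rw [abs_pos]
        exact Algebra.norm_ne_zero_iff.2 hl0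
      calc |Algebra.norm ℚ l| * |Algebra.norm ℚ ((j : ℚ) • (l⁻¹ * a) - ω)|
          < |Algebra.norm ℚ l| * 1 := mul_lt_mul_of_pos_left h1 hn
        _ = _ := mul_one _
    have h5 := hmin _ h3 h4
    rw [← h2] at h5
    have h6 : (j : ℚ) • (l⁻¹ * a) = ω := by
      rcases mul_eq_zero.1 h5 with h | h
      · exact (hl0 h).elim
      · exact sub_eq_zero.1 h
    obtain ⟨r, hr⟩ : j ∣ M := Nat.dvd_factorial hj hjq
    have h7 : (M : ℚ) • (l⁻¹ * a) = (r : ℚ) • ω := by
      rw [← h6, smul_smul, hr]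
      push_cast
      rw [mul_comm]
    rw [h7]
    intro i
    refine ⟨r * w i, ?_⟩
    rw [map_smul, Finsupp.smul_apply, hω, e.repr_sum_self, smul_eq_mul]
    push_cast
    ring

end Pool.Agent.Helper7.WS
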